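import Pool.Agent.Lib_helper46.Twist.Sound

set_option autoImplicit false

/-!
Combining several equations into one with separators.
-/

namespace Pool.Agent.Lib_helper46.Twist

open scoped commutatorElement

/-- The product of the commutators `⁅s_{i}, u_0⁆ ⁅s_{i+1}, u_1⁆ ⋯`. -/
def comb {G : Type*} [Group G] (s : ℕ → G) : ℕ → List G → G
  | _, [] => 1
  | i, u :: us => ⁅s i, u⁆ * comb s (i + 1) us

lemma comb_map {G G' : Type*} [Group G] [Group G'] (f : G →* G') (s : ℕ → G) (i : ℕ)
    (us : List G) : f (comb s i us) = comb (f ∘ s) i (us.map f) := by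
  induction us generalizing i with
  | nil => simp [comb]
  | cons u us ih => simp [comb, ih, map_commutatorElement]

lemma comb_one {G : Type*} [Group G] (s : ℕ → G) (i : ℕ) (us : List G) (h : ∀ u ∈ us, u = 1) :
    comb s i us = 1 := by
  induction us generalizing i with
  | nil => rfl
  | cons u us ih =>
    rw [comb, h u (by simp), ih _ fun v hv => h v (by simp [hv])]
    simp

/-- The shift at the identity. -/
def shiftPerm : Equiv.Perm (F × ℤ) where
  toFun z := (z.1, z.2 + if z.1 = 1 then 1 else 0)
  invFun z := (z.1, z.2 - if z.1 = 1 then 1 else 0)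
  left_inv z := by simp
  right_inv z := by simp

/-- Left multiplication on the first factor. -/
def leftPerm (g : F) : Equiv.Perm (F × ℤ) where
  toFun z := (g * z.1, z.2)
  invFun z := (g⁻¹ * z.1, z.2)
  left_inv z := by simp
  right_inv z := by simp

/-- The test action for the separator `6 + k`. -/
def Pi (k : ℕ) : F →* Equiv.Perm (F × ℤ) :=
  FreeGroup.lift fun m => if m < 6 then leftPerm (L m) else if m = 6 + k then shiftPerm else 1

lemma Pi_fst (k : ℕ) (g : F) : ∀ z : F × ℤ, (Pi k g z).1 = rho g * z.1 := by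
  have key : ∀ m, ∀ z : F × ℤ, (Pi k (L m) z).1 = rho (L m) * z.1 := by
    intro m z
    rw [rho_L]
    simp only [Pi, L, FreeGroup.lift_apply_of]
    split_ifs with h1 h2
    · rfl
    · simp [shiftPerm]
    · simp
  induction g using FreeGroup.induction_on with
  | C1 => intro z; simp
  | of m => exact key m
  | inv_of m h =>
    intro z
    have := key m ((Pi k (L m))⁻¹ z)
    have h2 : Pi k (L m) ((Pi k (L m))⁻¹ z) = z := by simp
    rw [h2] at this
    rw [map_inv, map_inv, eq_inv_mul_iff_mul_eq]
    exact this.symm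
  | mul g h hg hh =>
    intro z
    rw [map_mul, Equiv.Perm.mul_apply, hg, hh, map_mul, mul_assoc]

lemma Pi_snd (k : ℕ) (g : F) : ∀ (x : F) (n : ℤ), (Pi k g (x, n)).2 = (Pi k g (x, 0)).2 + n := by
  have key : ∀ m, ∀ (x : F) (n : ℤ), (Pi k (L m) (x, n)).2 = (Pi k (L m) (x, 0)).2 + n := by
    intro m x n
    simp only [Pi, L, FreeGroup.lift_apply_of]
    split_ifs with h1 h2
    · simp [leftPerm]
    · simp only [shiftPerm, Equiv.coe_fn_mk]; ring
    · simp
  induction g using FreeGroup.induction_on with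
  | C1 => intro x n; simp
  | of m => exact key m
  | inv_of m h =>
    intro x n
    obtain ⟨a, ha⟩ : ∃ a, a = (Pi k (L m)⁻¹ (x, n)) := ⟨_, rfl⟩
    obtain ⟨b, hb⟩ : ∃ b, b = (Pi k (L m)⁻¹ (x, 0)) := ⟨_, rfl⟩
    have ha' : Pi k (L m) a = (x, n) := by rw [ha, map_inv]; simp
    have hb' : Pi k (L m) b = (x, 0) := by rw [hb, map_inv]; simp
    have h1 : a.1 = b.1 := by
      rw [ha, hb, Pi_fst, Pi_fst]
    have h2 := key m a.1 a.2
    have h3 := key m b.1 b.2
    rw [Prod.mk.eta, ha'] at h2
    rw [Prod.mk.eta, hb', ← h1] at h3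
    show (Pi k (L m)⁻¹ (x, n)).2 = (Pi k (L m)⁻¹ (x, 0)).2 + n
    rw [← ha, ← hb]
    simp only at h2 h3
    omega
  | mul g h hg hh =>
    intro x n
    simp only [map_mul, Equiv.Perm.mul_apply]
    have h1 : Pi k h (x, n) = ((Pi k h (x, 0)).1, (Pi k h (x, 0)).2 + n) := by
      ext
      · rw [Pi_fst, Pi_fst]
      · rw [hh]
    rw [h1, hg]
    have h2 : Pi k g (Pi k h (x, 0)) = Pi k g ((Pi k h (x, 0)).1, (Pi k h (x, 0)).2) := rfl
    rw [h2, hg _ (Pi k h (x, 0)).2]
    ring

lemma rho_of_commute (k : ℕ) (u : F) (h : Pi k ⁅L (6 + k), u⁆ = 1) : rho u = 1 := by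
  rw [commutatorElement_def, map_mul, map_mul, map_mul, map_inv, map_inv,
    mul_inv_eq_one, mul_inv_eq_iff_eq_mul] at h
  have hs : Pi k (L (6 + k)) = shiftPerm := by
    simp [Pi, L]
  rw [hs] at h
  have h1 := congrArg (fun p : Equiv.Perm (F × ℤ) => (p (1, 0)).2) h
  simp only [Equiv.Perm.mul_apply] at h1
  have h2 : shiftPerm (1, 0) = ((1 : F), (1 : ℤ)) := by simp [shiftPerm]
  rw [h2, Pi_snd] at h1
  by_contra hne
  have h3 : (shiftPerm (Pi k u (1, 0))).2 = (Pi k u (1, 0)).2 := by
    have : (Pi k u (1, 0)).1 ≠ 1 := by rw [Pi_fst]; simpa using hne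
    simp [shiftPerm, this]
  rw [h3] at h1
  omega

/-- **Soundness of the combination.** -/
lemma comb_sound (i : ℕ) (us : List F) (h : comb (fun j => L (6 + j)) i us = 1) :
    ∀ u ∈ us, rho u = 1 := by
  have key : ∀ (us : List F) (i k : ℕ), k < i →
      Pi k (comb (fun j => L (6 + j)) i us) = 1 := by
    intro us
    induction us with
    | nil => intro i k _; simp [comb]
    | cons u us ih =>
      intro i k hk
      rw [comb, map_mul, ih (i + 1) k (by omega), mul_one, map_commutatorElement]
      have : Pi k (L (6 + i)) = 1 := by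
        simp only [Pi, L, FreeGroup.lift_apply_of]
        rw [if_neg (by omega), if_neg (by omega)]
      rw [this]; simp
  suffices H : ∀ (us : List F) (i : ℕ), (∀ k, i ≤ k → Pi k (comb (fun j => L (6 + j)) i us) = 1) →
      ∀ u ∈ us, rho u = 1 from H us i (fun k _ => by rw [h, map_one])
  intro us
  induction us with
  | nil => intro i _ u hu; simp at hu
  | cons u us ih =>
    intro i hk v hv
    rcases List.mem_cons.1 hv with rfl | hv
    · apply rho_of_commute i
      have := hk i le_rfl
      rwa [comb, map_mul, key us (i + 1) i (by omega), mul_one] at this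
    · refine ih (i + 1) (fun k hk' => ?_) v hv
      have := hk k (by omega)
      rw [comb, map_mul, map_commutatorElement] at this
      have h1 : Pi k (L (6 + i)) = 1 := by
        simp only [Pi, L, FreeGroup.lift_apply_of]
        rw [if_neg (by omega), if_neg (by omega)]
      rw [h1] at this
      simpa using this

end Pool.Agent.Lib_helper46.Twist
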