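import Pool.Agent.Lib_helper46.Twist.Sound

set_option autoImplicit false

/-!
Completeness of the gadgets.
-/

namespace Pool.Agent.Lib_helper46.Twist

/-- The automorphism of an operation. -/
def actE (o : Op) : MulAut F where
  toFun := act o
  invFun := act o.iv
  left_inv := act_iv_act o
  right_inv := act_act_iv o
  map_mul' := map_mul (act o)

@[simp] lemma actE_apply (o : Op) (g : F) : actE o g = act o g := rfl

/-- The cocycle lemma. -/
lemma coc (α : MulAut F) (w : ℤ → F) (hw : ∀ n, α (w n) = w (n + 1)) (P : Subgroup F)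
    (hP : w 0 ∈ P) (hα : ∀ z ∈ P, α z ∈ P) (hα' : ∀ z ∈ P, α⁻¹ z ∈ P) (n : ℤ) :
    ∃ z ∈ P, w 0 * α z = z * w n := by
  induction n using Int.induction_on with
  | zero => exact ⟨1, P.one_mem, by simp⟩
  | succ n ih =>
    obtain ⟨z, hz, h⟩ := ih
    refine ⟨w 0 * α z, P.mul_mem hP (hα z hz), ?_⟩
    conv_lhs => rw [h]
    rw [map_mul, hw]
    rw [← mul_assoc]
  | pred n ih =>
    obtain ⟨z, hz, h⟩ := ih
    have hi : ∀ m, α⁻¹ (w m) = w (m - 1) := fun m => by
      have := hw (m - 1)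
      rw [sub_add_cancel] at this
      rw [← this, MulAut.inv_apply_self]
    refine ⟨α⁻¹ ((w 0)⁻¹ * z), hα' _ (P.mul_mem (P.inv_mem hP) hz), ?_⟩
    rw [MulAut.apply_inv_self, mul_inv_cancel_left, ← hi, ← map_mul, mul_assoc, ← h,
      inv_mul_cancel_left, MulAut.inv_apply_self]

/-- The subgroup generated by the letters 1, 2, 3. -/
def P : Subgroup F := Subgroup.closure {L 1, L 2, L 3}

lemma L1P : L 1 ∈ P := Subgroup.subset_closure (by simp)
lemma L2P : L 2 ∈ P := Subgroup.subset_closure (by simp)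
lemma L3P : L 3 ∈ P := Subgroup.subset_closure (by simp)

lemma P_hom (f : F →* F) (h1 : f (L 1) ∈ P) (h2 : f (L 2) ∈ P) (h3 : f (L 3) ∈ P) (z : F)
    (hz : z ∈ P) : f z ∈ P := by
  have : P ≤ P.comap f := by
    rw [P, Subgroup.closure_le]
    intro g hg
    rcases hg with rfl | rfl | rfl
    · exact h1
    · exact h2
    · exact h3
  exact this hz

lemma act_io_P (z : F) (hz : z ∈ P) : act .io z = z := by
  have : P ≤ (act .io).eqLocus (MonoidHom.id F) := by
    rw [P, Subgroup.closure_le]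
    intro g hg
    rcases hg with rfl | rfl | rfl
    all_goals
      show act .io _ = _
      rw [act_of]
      rfl
  exact this hz

/-- `φ` on letters. -/
lemma ph1 : act .ph (L 1) = L 1 := by rw [act_of]; rfl
lemma ph2 : act .ph (L 2) = L 2 * L 1 := by rw [act_of]; rfl
lemma ph3 : act .ph (L 3) = L 3 := by rw [act_of]; rfl
lemma ph4 : act .ph (L 4) = L 4 := by rw [act_of]; rfl
lemma ph5 : act .ph (L 5) = L 5 * L 4 := by rw [act_of]; rfl
lemma phi1 : act .phi (L 1) = L 1 := by rw [act_of]; rfl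
lemma phi2 : act .phi (L 2) = L 2 * (L 1)⁻¹ := by rw [act_of]; rfl
lemma phi3 : act .phi (L 3) = L 3 := by rw [act_of]; rfl
lemma ps1 : act .ps (L 1) = L 1 := by rw [act_of]; rfl
lemma ps2 : act .ps (L 2) = L 3 * L 2 := by rw [act_of]; rfl
lemma ps3 : act .ps (L 3) = L 3 := by rw [act_of]; rfl
lemma psi1 : act .psi (L 1) = L 1 := by rw [act_of]; rfl
lemma psi2 : act .psi (L 2) = (L 3)⁻¹ * L 2 := by rw [act_of]; rfl
lemma psi3 : act .psi (L 3) = L 3 := by rw [act_of]; rfl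

lemma ph_P (z : F) (hz : z ∈ P) : act .ph z ∈ P :=
  P_hom _ (by rw [ph1]; exact L1P) (by rw [ph2]; exact P.mul_mem L2P L1P)
    (by rw [ph3]; exact L3P) z hz
lemma phi_P (z : F) (hz : z ∈ P) : act .phi z ∈ P :=
  P_hom _ (by rw [phi1]; exact L1P) (by rw [phi2]; exact P.mul_mem L2P (P.inv_mem L1P))
    (by rw [phi3]; exact L3P) z hz
lemma ps_P (z : F) (hz : z ∈ P) : act .ps z ∈ P :=
  P_hom _ (by rw [ps1]; exact L1P) (by rw [ps2]; exact P.mul_mem L3P L2P)
    (by rw [ps3]; exact L3P) z hz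
lemma psi_P (z : F) (hz : z ∈ P) : act .psi z ∈ P :=
  P_hom _ (by rw [psi1]; exact L1P) (by rw [psi2]; exact P.mul_mem (P.inv_mem L3P) L2P)
    (by rw [psi3]; exact L3P) z hz

/-- zpow induction -/
lemma zpow_ind (_α : MulAut F) (C : ℤ → Prop) (h0 : C 0) (h1 : ∀ n, C n → C (n + 1))
    (h2 : ∀ n, C n → C (n - 1)) (n : ℤ) : C n := by
  induction n using Int.induction_on with
  | zero => exact h0
  | succ n ih => exact h1 _ ih
  | pred n ih => exact h2 _ ih

lemma zpow_fix (α : MulAut F) (g : F) (h : α g = g) (n : ℤ) : (α ^ n) g = g := by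
  have h' : α⁻¹ g = g := by rw [MulAut.inv_apply, MulEquiv.symm_apply_eq]; exact h.symm
  refine zpow_ind α (fun n => (α ^ n) g = g) (by simp) (fun n ih => ?_) (fun n ih => ?_) n
  · rw [zpow_add, zpow_one, MulAut.mul_apply, h, ih]
  · rw [zpow_sub, zpow_one, MulAut.mul_apply, h', ih]

lemma zpow_mul_right (α : MulAut F) (g u : F) (hg : α g = g * u) (hu : α u = u) (n : ℤ) :
    (α ^ n) g = g * u ^ n := by
  have hg' : α⁻¹ g = g * u⁻¹ := by
    rw [MulAut.inv_apply, MulEquiv.symm_apply_eq, map_mul, map_inv, hg, hu]; simp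
  refine zpow_ind α (fun n => (α ^ n) g = g * u ^ n) (by simp) (fun n ih => ?_)
    (fun n ih => ?_) n
  · rw [zpow_add, zpow_one, MulAut.mul_apply, hg, map_mul, ih, zpow_fix α u hu, zpow_add,
      zpow_one, mul_assoc]
  · rw [zpow_sub, zpow_one, MulAut.mul_apply, hg', map_mul, ih, map_inv, zpow_fix α u hu,
      zpow_sub, zpow_one, mul_assoc]

lemma zpow_P (α : MulAut F) (h1 : ∀ z ∈ P, α z ∈ P) (h2 : ∀ z ∈ P, α⁻¹ z ∈ P) (n : ℤ) (z : F)
    (hz : z ∈ P) : (α ^ n) z ∈ P := by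
  revert z
  refine zpow_ind α (fun n => ∀ z ∈ P, (α ^ n) z ∈ P) (by simp) (fun n ih z hz => ?_)
    (fun n ih z hz => ?_) n
  · rw [zpow_add, zpow_one, MulAut.mul_apply]; exact ih _ (h1 z hz)
  · rw [zpow_sub, zpow_one, MulAut.mul_apply]; exact ih _ (h2 z hz)

lemma actE_inv (o : Op) (g : F) : (actE o)⁻¹ g = act o.iv g := rfl

/-- The automorphism `θ`. -/
def th (k : ℤ) : MulAut F := MulAut.conj (L 3)⁻¹ * (actE .ps * (actE .ph) ^ k)

lemma th_apply (k : ℤ) (g : F) : th k g = (L 3)⁻¹ * act .ps ((actE .ph ^ k) g) * L 3 := by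
  rw [th, MulAut.mul_apply, MulAut.mul_apply, MulAut.conj_apply, inv_inv]
  rfl

lemma th1 (k : ℤ) : th k (L 1) = (L 3)⁻¹ * L 1 * L 3 := by
  rw [th_apply, zpow_fix (actE .ph) (L 1) (by rw [actE_apply, ph1]), ps1]

lemma th2 (k : ℤ) : th k (L 2) = L 2 * L 1 ^ k * L 3 := by
  rw [th_apply, zpow_mul_right (actE .ph) (L 2) (L 1) (by rw [actE_apply, ph2])
    (by rw [actE_apply, ph1]), map_mul, map_zpow, ps1, ps2]
  simp [mul_assoc]

lemma th3 (k : ℤ) : th k (L 3) = L 3 := by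
  rw [th_apply, zpow_fix (actE .ph) (L 3) (by rw [actE_apply, ph3]), ps3]
  simp

lemma conj_zpow' (a b : F) (n : ℤ) : (b⁻¹ * a * b) ^ n = b⁻¹ * a ^ n * b := by
  have := conj_zpow (i := n) (a := b⁻¹) (b := a)
  rwa [inv_inv] at this

lemma th_w (k j : ℤ) : th k (L 2 * L 1 ^ (j * k) * L 3 ^ j) =
    L 2 * L 1 ^ ((j + 1) * k) * L 3 ^ (j + 1) := by
  rw [map_mul, map_mul, map_zpow, map_zpow, th1, th2, th3, conj_zpow', add_mul, one_mul,
    add_comm (j * k) k, zpow_add, add_comm j 1, zpow_add, zpow_one]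
  simp only [mul_assoc, mul_inv_cancel_left]

lemma th_P (k : ℤ) (z : F) (hz : z ∈ P) : th k z ∈ P := by
  rw [th_apply]
  refine P.mul_mem (P.mul_mem (P.inv_mem L3P) (ps_P _ ?_)) L3P
  exact zpow_P _ ph_P phi_P k z hz

lemma th_P' (k : ℤ) (z : F) (hz : z ∈ P) : (th k)⁻¹ z ∈ P := by
  rw [th, mul_inv_rev, mul_inv_rev, ← map_inv, inv_inv, MulAut.mul_apply, MulAut.mul_apply,
    MulAut.conj_apply, ← zpow_neg]
  refine zpow_P _ ph_P phi_P _ _ ?_
  exact psi_P _ (P.mul_mem (P.mul_mem L3P hz) (P.inv_mem L3P))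

/-- **Completeness of the multiplication gadget.** -/
theorem mul_complete (k m : ℤ) : ∃ x y Z : F, act .io x = x ∧ act .io y = y ∧
    L 5 * x * act .ph Z = Z * L 5 * act .s4 (L 0 ^ k) * y ∧
    L 2 * (L 3)⁻¹ * act .ps y * L 3 =
      x * L 2 * act .s1 (L 0 ^ (k * m)) * act .s3 (L 0 ^ m) := by
  obtain ⟨x, hx, h⟩ := coc (th k) (fun j => L 2 * L 1 ^ (j * k) * L 3 ^ j) (th_w k) P
    (by simpa using L2P) (th_P k) (th_P' k) m
  obtain ⟨Z, -, hZ⟩ := coc (actE .ph) (fun j => L 5 * L 4 ^ j * (actE .ph ^ j) x)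
    (fun j => by
      rw [map_mul, map_mul, map_zpow, actE_apply, actE_apply, ph5, ph4, ← MulAut.mul_apply,
        ← zpow_one_add, add_comm j 1, zpow_add (L 4), zpow_one]
      simp only [mul_assoc]) ⊤ (Subgroup.mem_top _)
      (fun _ _ => Subgroup.mem_top _) (fun _ _ => Subgroup.mem_top _) k
  refine ⟨x, (actE .ph ^ k) x, Z, act_io_P x hx, act_io_P _ (zpow_P _ ph_P phi_P k x hx), ?_, ?_⟩
  · simp only [zpow_zero, mul_one, MulAut.one_apply, actE_apply] at hZ
    have h4 : act .s4 (L 0 ^ k) = L 4 ^ k := by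
      rw [map_zpow, act_of]; rfl
    rw [hZ, h4]
    simp only [mul_assoc]
  · simp only [zpow_zero, mul_one, zero_mul] at h
    have h1 : act .s1 (L 0 ^ (k * m)) = L 1 ^ (m * k) := by
      rw [map_zpow, act_of, mul_comm]; rfl
    have h3 : act .s3 (L 0 ^ m) = L 3 ^ m := by
      rw [map_zpow, act_of]; rfl
    rw [h1, h3]
    rw [th_apply] at h
    simp only [mul_assoc] at h ⊢
    exact h

lemma num_complete (n : ℤ) : act .io (L 0 ^ n) = L 0 ^ n ∧ act .it (L 0 ^ n) = L 0 ^ n := by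
  constructor
  · rw [map_zpow, act_of]; rfl
  · rw [map_zpow, act_of]; rfl

end Pool.Agent.Lib_helper46.Twist
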