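import Mathlib

set_option autoImplicit false

/-!
Expressions over the integers and their flattening to elementary constraints.
-/

namespace Pool.Agent.Lib_helper46.Twist

/-- Polynomial expressions. -/
inductive Ex (γ : Type) : Type
  | pr : γ → Ex γ
  | c : ℤ → Ex γ
  | sub : Ex γ → Ex γ → Ex γ
  | mul : Ex γ → Ex γ → Ex γ

namespace Ex

variable {γ δ : Type}

/-- Value over the integers. -/
def eval (u : γ → ℤ) : Ex γ → ℤ
  | pr i => u i
  | c z => z
  | sub a b => eval u a - eval u b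
  | mul a b => eval u a * eval u b

/-- Substitution. -/
def subst (σ : γ → Ex δ) : Ex γ → Ex δ
  | pr i => σ i
  | c z => c z
  | sub a b => sub (subst σ a) (subst σ b)
  | mul a b => mul (subst σ a) (subst σ b)

lemma eval_subst (σ : γ → Ex δ) (u : δ → ℤ) (e : Ex γ) :
    eval u (subst σ e) = eval (fun i => eval u (σ i)) e := by
  induction e with
  | pr i => rfl
  | c z => rfl
  | sub a b ha hb => simp only [subst, eval, ha, hb]
  | mul a b ha hb => simp only [subst, eval, ha, hb]

lemma of_isPoly {f : (γ → ℕ) → ℤ} (hf : IsPoly f) :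
    ∃ e : Ex γ, ∀ w : γ → ℕ, eval (fun i => (w i : ℤ)) e = f w := by
  induction hf with
  | proj i => exact ⟨pr i, fun w => rfl⟩
  | const n => exact ⟨c n, fun w => rfl⟩
  | sub _ _ ih1 ih2 =>
    obtain ⟨a, ha⟩ := ih1
    obtain ⟨b, hb⟩ := ih2
    exact ⟨sub a b, fun w => by rw [eval, ha, hb]⟩
  | mul _ _ ih1 ih2 =>
    obtain ⟨a, ha⟩ := ih1
    obtain ⟨b, hb⟩ := ih2
    exact ⟨mul a b, fun w => by rw [eval, ha, hb]⟩

/-- Subexpressions. -/
def subs : Ex γ → List (Ex γ)
  | pr i => [pr i]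
  | c z => [c z]
  | sub a b => sub a b :: (subs a ++ subs b)
  | mul a b => mul a b :: (subs a ++ subs b)

lemma self_mem (e : Ex γ) : e ∈ subs e := by
  cases e <;> simp [subs]

lemma mem_trans {s e : Ex γ} (h : s ∈ subs e) : ∀ t ∈ subs s, t ∈ subs e := by
  induction e with
  | pr i => simp only [subs, List.mem_singleton] at h; subst h; simp
  | c z => simp only [subs, List.mem_singleton] at h; subst h; simp
  | sub a b ha hb =>
    rw [subs, List.mem_cons, List.mem_append] at h
    rcases h with rfl | h | h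
    · simp
    · intro t ht; rw [subs]; simp [ha h t ht]
    · intro t ht; rw [subs]; simp [hb h t ht]
  | mul a b ha hb =>
    rw [subs, List.mem_cons, List.mem_append] at h
    rcases h with rfl | h | h
    · simp
    · intro t ht; rw [subs]; simp [ha h t ht]
    · intro t ht; rw [subs]; simp [hb h t ht]

/-- The elementary constraint of an expression, for an assignment `v` of integers. -/
def constr (v : Ex γ → ℤ) : Ex γ → Prop
  | pr _ => True
  | c z => v (c z) = z
  | sub a b => v (sub a b) = v a - v b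
  | mul a b => v (mul a b) = v a * v b

lemma eval_eq_of_constr (v : Ex γ → ℤ) (s : Ex γ) (h : ∀ t ∈ subs s, constr v t) :
    eval (fun i => v (pr i)) s = v s := by
  induction s with
  | pr i => rfl
  | c z => exact (h _ (self_mem _)).symm
  | sub a b ha hb =>
    have := h _ (self_mem _)
    rw [constr] at this
    rw [eval, this, ha fun t ht => h t (by simp [subs, ht]),
      hb fun t ht => h t (by simp [subs, ht])]
  | mul a b ha hb =>
    have := h _ (self_mem _)
    rw [constr] at this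
    rw [eval, this, ha fun t ht => h t (by simp [subs, ht]),
      hb fun t ht => h t (by simp [subs, ht])]

lemma constr_eval (u : γ → ℤ) (s : Ex γ) : constr (eval u) s := by
  cases s <;> simp [constr, eval]

end Ex

/-- A Diophantine set of naturals given by an integer expression. -/
theorem exists_ex {S : Set (Unit → ℕ)} (h : Dioph S) :
    ∃ (δ : Type) (e : Ex (Unit ⊕ δ)), ∀ n : ℕ, (fun _ => n) ∈ S ↔
      ∃ t : δ → ℤ, e.eval (Sum.elim (fun _ => (n : ℤ)) t) = 0 := by
  obtain ⟨β, p, hp⟩ := h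
  obtain ⟨e, he⟩ := Ex.of_isPoly p.2
  let sq : Ex (Unit ⊕ (β × Fin 4)) → Ex (Unit ⊕ (β × Fin 4)) := fun a => Ex.mul a a
  let ad : Ex (Unit ⊕ (β × Fin 4)) → Ex (Unit ⊕ (β × Fin 4)) → Ex (Unit ⊕ (β × Fin 4)) :=
    fun a b => Ex.sub a (Ex.sub (Ex.c 0) b)
  let σ : Unit ⊕ β → Ex (Unit ⊕ (β × Fin 4)) := Sum.elim (fun u => Ex.pr (Sum.inl u))
    (fun b => ad (ad (sq (Ex.pr (Sum.inr (b, 0)))) (sq (Ex.pr (Sum.inr (b, 1)))))
      (ad (sq (Ex.pr (Sum.inr (b, 2)))) (sq (Ex.pr (Sum.inr (b, 3))))))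
  refine ⟨β × Fin 4, e.subst σ, fun n => ?_⟩
  have hp' := hp (fun _ => n)
  have h1 : (fun _ => n) ∈ S ↔ ∃ t : β → ℕ, p (Sum.elim (fun _ => n) t) = 0 := hp'
  rw [h1]
  constructor
  · rintro ⟨t, ht⟩
    choose a b c d habcd using fun i => Nat.sum_four_squares (t i)
    refine ⟨fun x => if x.2 = 0 then a x.1 else if x.2 = 1 then b x.1 else if x.2 = 2 then c x.1
      else d x.1, ?_⟩
    rw [Ex.eval_subst]
    have h2 := he (Sum.elim (fun _ => n) t)
    have h3 : p (Sum.elim (fun _ => n) t) = 0 := ht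
    rw [show p.1 (Sum.elim (fun _ => n) t) = 0 from h3] at h2
    rw [← h2]
    congr 1
    funext i
    rcases i with i | i
    · simp [σ, Ex.eval]
    · simp [σ, ad, sq, Ex.eval, ← habcd i]
      ring
  · rintro ⟨t, ht⟩
    rw [Ex.eval_subst] at ht
    refine ⟨fun b => (t (b, 0) ^ 2 + t (b, 1) ^ 2 + t (b, 2) ^ 2 + t (b, 3) ^ 2).toNat, ?_⟩
    have h2 := he (Sum.elim (fun _ => n)
      (fun b => (t (b, 0) ^ 2 + t (b, 1) ^ 2 + t (b, 2) ^ 2 + t (b, 3) ^ 2).toNat))
    show p.1 _ = 0
    rw [← h2, ← ht]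
    congr 1
    funext i
    rcases i with i | i
    · simp [σ, Ex.eval]
    · have : 0 ≤ t (i, 0) ^ 2 + t (i, 1) ^ 2 + t (i, 2) ^ 2 + t (i, 3) ^ 2 := by positivity
      simp only [Sum.elim_inr, Int.toNat_of_nonneg this]
      simp [σ, ad, sq, Ex.eval]
      ring

end Pool.Agent.Lib_helper46.Twist
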