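import Pool.Agent.Lib_helper46.Twist.System
import Pool.Agent.Lib_helper46.DPRM.MRDP

set_option autoImplicit false

/-!
Transfer to free groups of finite rank, and the computable reduction.
-/

namespace Pool.Agent.Lib_helper46.Twist

open Ex

/-- The retraction to the free group of rank `r`. -/
def inc (r : ℕ) : F →* FreeGroup (Fin r) :=
  FreeGroup.lift fun m : ℕ => if h : m < r then FreeGroup.of (⟨m, h⟩ : Fin r) else 1

/-- The embedding. -/
def emb (r : ℕ) : FreeGroup (Fin r) →* F := FreeGroup.lift fun k => L k.val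

/-- The automorphism of an operation in rank `r`. -/
def actr (r : ℕ) (o : Op) : FreeGroup (Fin r) →* FreeGroup (Fin r) :=
  FreeGroup.lift fun k => inc r (FreeGroup.mk (img o k.val))

lemma inc_L {r m : ℕ} (h : m < r) : inc r (L m) = FreeGroup.of (⟨m, h⟩ : Fin r) := by
  simp [inc, h]

lemma inc_emb (r : ℕ) (g : FreeGroup (Fin r)) : inc r (emb r g) = g := by
  have : (inc r).comp (emb r) = MonoidHom.id _ := by
    apply FreeGroup.ext_hom
    intro k
    simp only [emb, MonoidHom.comp_apply, FreeGroup.lift_apply_of, MonoidHom.id_apply]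
    rw [inc_L k.2]
  exact DFunLike.congr_fun this g

lemma emb_inc_mk (r : ℕ) (w : List (ℕ × Bool)) (hw : ∀ p ∈ w, p.1 < r) :
    emb r (inc r (FreeGroup.mk w)) = FreeGroup.mk w := by
  induction w with
  | nil => show emb r (inc r 1) = 1; simp
  | cons p w ih =>
    have h1 : (FreeGroup.mk (p :: w) : F) = FreeGroup.mk [p] * FreeGroup.mk w := rfl
    rw [h1, map_mul, map_mul, ih fun q hq => hw q (List.mem_cons_of_mem _ hq)]
    congr 1
    obtain ⟨m, b⟩ := p
    have hm : m < r := hw (m, b) List.mem_cons_self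
    cases b
    · rw [mk_single', map_inv, inc_L hm, map_inv]
      simp [emb]
    · rw [mk_single, inc_L hm]
      simp [emb]

lemma img_lt {r : ℕ} (hr : 6 ≤ r) (o : Op) {k : ℕ} (hk : k < r) : ∀ p ∈ img o k, p.1 < r := by
  intro p hp
  cases o <;> simp only [img] at hp
  all_goals
    try split_ifs at hp
    all_goals
      simp only [List.mem_cons, List.not_mem_nil, or_false] at hp
      first
      | (subst hp; simp only; omega)
      | (rcases hp with rfl | rfl <;> simp only <;> omega)

lemma inc_act {r : ℕ} (hr : 6 ≤ r) (o : Op) (g : F) : inc r (act o g) = actr r o (inc r g) := by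
  have : (inc r).comp (act o) = (actr r o).comp (inc r) := by
    apply FreeGroup.ext_hom
    intro m
    simp only [MonoidHom.comp_apply]
    rw [act_of]
    by_cases hm : m < r
    · rw [inc_L hm]
      simp [actr]
    · have h1 : img o m = [(m, true)] := by
        have h6 : 6 ≤ m := by omega
        rcases o <;> simp [img, h6, show m ≠ 2 by omega, show m ≠ 5 by omega,
          show m ≠ 0 by omega, show m ≠ 1 by omega, show m ≠ 3 by omega, show m ≠ 4 by omega]
      have h2 : inc r (L m) = 1 := by simp [inc, hm]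
      rw [h1, mk_single, h2, map_one]
  exact DFunLike.congr_fun this g

lemma act_emb {r : ℕ} (hr : 6 ≤ r) (o : Op) (g : FreeGroup (Fin r)) :
    act o (emb r g) = emb r (actr r o g) := by
  have : (act o).comp (emb r) = (emb r).comp (actr r o) := by
    apply FreeGroup.ext_hom
    intro k
    simp only [MonoidHom.comp_apply, emb, actr, FreeGroup.lift_apply_of]
    rw [act_of]
    exact (emb_inc_mk r _ (img_lt hr o k.2)).symm
  exact DFunLike.congr_fun this g

lemma actr_iv {r : ℕ} (hr : 6 ≤ r) (o : Op) (g : FreeGroup (Fin r)) :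
    actr r o.iv (actr r o g) = g := by
  conv_lhs => rw [← inc_emb r g]
  rw [← inc_act hr, ← inc_act hr, act_iv_act, inc_emb]

lemma actr_bij {r : ℕ} (hr : 6 ≤ r) (o : Op) : Function.Bijective (actr r o) := by
  refine Function.bijective_iff_has_inverse.2 ⟨actr r o.iv, actr_iv hr o, fun g => ?_⟩
  have := actr_iv hr o.iv g
  rwa [iv_iv] at this

/-- The list of twisted symbols. -/
def SS (r N : ℕ) : List (ℕ × List (List (ℕ × Bool))) :=
  (List.range N).map fun j => (j / 10, (List.range r).map (img (opc (j % 10))))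

lemma SS_length (r N : ℕ) : (SS r N).length = N := by simp [SS]

lemma SS_getD (r N j : ℕ) (hj : j < N) :
    (SS r N).getD j (0, []) = (j / 10, (List.range r).map (img (opc (j % 10)))) := by
  simp [SS, List.getD, hj]

lemma map_getD (r : ℕ) (f : ℕ → List (ℕ × Bool)) (k : Fin r) :
    ((List.range r).map f).getD k.val [] = f k.val := by
  simp [List.getD]

/-- Evaluation in rank `r`, in the form of the frozen statement. -/
def evr (r : ℕ) (S : List (ℕ × List (List (ℕ × Bool)))) (x : ℕ → FreeGroup (Fin r)) :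
    G →* FreeGroup (Fin r) :=
  FreeGroup.lift
    (Sum.elim
      (fun m : ℕ => if h : m < r then FreeGroup.of (⟨m, h⟩ : Fin r) else 1)
      (fun j : ℕ =>
        FreeGroup.lift (fun k : Fin r =>
          FreeGroup.lift
            (fun m : ℕ => if h : m < r then FreeGroup.of (⟨m, h⟩ : Fin r) else 1)
            (FreeGroup.mk ((S.getD j (0, [])).2.getD k.val [])))
          (x (S.getD j (0, [])).1)))

lemma evr_inr {r N j : ℕ} (hj : j < N) (x : ℕ → FreeGroup (Fin r)) :
    evr r (SS r N) x (FreeGroup.of (Sum.inr j)) = actr r (opc (j % 10)) (x (j / 10)) := by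
  simp only [evr, FreeGroup.lift_apply_of, Sum.elim_inr]
  rw [SS_getD r N j hj]
  simp only [map_getD]
  rfl

lemma evr_inl {r N m : ℕ} (x : ℕ → FreeGroup (Fin r)) :
    evr r (SS r N) x (FreeGroup.of (Sum.inl m)) = inc r (L m) := by
  simp [evr, inc]

lemma hom_congr {A B : Type} [Group B] (f g : FreeGroup A →* B) (w : List (A × Bool))
    (h : ∀ p ∈ w, f (FreeGroup.of p.1) = g (FreeGroup.of p.1)) :
    f (FreeGroup.mk w) = g (FreeGroup.mk w) := by
  induction w with
  | nil => show f 1 = g 1; simp
  | cons p w ih =>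
    have h1 : FreeGroup.mk (p :: w) = FreeGroup.mk [p] * FreeGroup.mk w := rfl
    rw [h1, map_mul, map_mul, ih fun q hq => h q (List.mem_cons_of_mem _ hq)]
    congr 1
    obtain ⟨m, b⟩ := p
    have hm := h (m, b) List.mem_cons_self
    cases b
    · have : (FreeGroup.mk [(m, false)]) = (FreeGroup.of m)⁻¹ := rfl
      rw [this, map_inv, map_inv, hm]
    · exact hm

/-- Transfer between the infinite rank and the finite rank. -/
theorem transfer {r N : ℕ} (hr : 6 ≤ r) (w : List ((ℕ ⊕ ℕ) × Bool))
    (h1 : ∀ p ∈ w, ∀ m, p.1 = Sum.inl m → m < r)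
    (h2 : ∀ p ∈ w, ∀ j, p.1 = Sum.inr j → j < N) :
    (∃ x : ℕ → FreeGroup (Fin r), evr r (SS r N) x (FreeGroup.mk w) = 1) ↔
      ∃ x : ℕ → F, ev x (FreeGroup.mk w) = 1 := by
  constructor
  · rintro ⟨x, hx⟩
    refine ⟨fun i => emb r (x i), ?_⟩
    have : ev (fun i => emb r (x i)) (FreeGroup.mk w) =
        ((emb r).comp (evr r (SS r N) x)) (FreeGroup.mk w) := by
      apply hom_congr
      rintro ⟨p, b⟩ hp
      rcases p with m | j
      · have hm := h1 _ hp m rfl
        rw [MonoidHom.comp_apply, evr_inl, inc_L hm]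
        simp [ev, emb]
      · have hj := h2 _ hp j rfl
        rw [MonoidHom.comp_apply, evr_inr hj, ← act_emb hr]
        simp [ev]
    rw [this, MonoidHom.comp_apply, hx, map_one]
  · rintro ⟨x, hx⟩
    refine ⟨fun i => inc r (x i), ?_⟩
    have : evr r (SS r N) (fun i => inc r (x i)) (FreeGroup.mk w) =
        ((inc r).comp (ev x)) (FreeGroup.mk w) := by
      apply hom_congr
      rintro ⟨p, b⟩ hp
      rcases p with m | j
      · rw [MonoidHom.comp_apply, evr_inl]
        simp [ev]
      · have hj := h2 _ hp j rfl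
        rw [MonoidHom.comp_apply, evr_inr hj, ← inc_act hr]
        simp [ev]
    rw [this, MonoidHom.comp_apply, hx, map_one]

/-- The word of the equation. -/
def word (j : ℕ) (W : List ((ℕ ⊕ ℕ) × Bool)) (n : ℕ) : List ((ℕ ⊕ ℕ) × Bool) :=
  [(Sum.inl 6, true)] ++ ((List.range n).map (fun _ => (Sum.inl 0, false)) ++
    ([(Sum.inr j, true), (Sum.inl 6, false), (Sum.inr j, false)] ++
      ((List.range n).map (fun _ => (Sum.inl 0, true)) ++ W)))

lemma word_computable (j : ℕ) (W : List ((ℕ ⊕ ℕ) × Bool)) : Computable (word j W) := by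
  apply Primrec.to_comp
  have h1 : Primrec fun n : ℕ => (List.range n).map fun _ => ((Sum.inl 0, false) : (ℕ ⊕ ℕ) × Bool) :=
    Primrec.list_map Primrec.list_range (Primrec.const _).to₂
  have h2 : Primrec fun n : ℕ => (List.range n).map fun _ => ((Sum.inl 0, true) : (ℕ ⊕ ℕ) × Bool) :=
    Primrec.list_map Primrec.list_range (Primrec.const _).to₂
  exact Primrec.list_append.comp (Primrec.const _) (Primrec.list_append.comp h1
    (Primrec.list_append.comp (Primrec.const _) (Primrec.list_append.comp h2 (Primrec.const _))))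

lemma mk_rep (A : Type) (a : A) (n : ℕ) :
    FreeGroup.mk ((List.range n).map fun _ => (a, true)) = FreeGroup.of a ^ n := by
  induction n with
  | zero => rfl
  | succ n ih =>
    rw [List.range_succ, List.map_append, ← FreeGroup.mul_mk, ih, pow_succ]
    rfl

lemma mk_rep' (A : Type) (a : A) (n : ℕ) :
    FreeGroup.mk ((List.range n).map fun _ => (a, false)) = (FreeGroup.of a ^ n)⁻¹ := by
  induction n with
  | zero => rfl
  | succ n ih =>
    rw [List.range_succ, List.map_append, ← FreeGroup.mul_mk, ih, pow_succ', mul_inv_rev]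
    rfl


lemma total_eq {γ : Type} (idx : Ex γ → ℕ) (l : List (Ex γ)) (e : Ex γ) (i n : ℕ) :
    total idx l e i n = FreeGroup.mk (word (10 * (4 * i))
      (comb (fun j => cs (6 + j)) 1 (allEqs idx l e)).toWord n) := by
  rw [total, comb, word]
  simp only [← FreeGroup.mul_mk, mk_rep, mk_rep', FreeGroup.mk_toWord]
  have h1 : (FreeGroup.mk [(Sum.inl 6, true)] : G) = cs 6 := rfl
  have h2 : (FreeGroup.mk [(Sum.inr (10 * (4 * i)), true), (Sum.inl 6, false),
      (Sum.inr (10 * (4 * i)), false)] : G) = sy (4 * i) .i0 * (cs 6)⁻¹ * (sy (4 * i) .i0)⁻¹ := rfl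
  rw [h1, h2, commutatorElement_def, pe]
  have h3 : (FreeGroup.of (Sum.inl 0) : G) = cs 0 := rfl
  rw [h3]
  simp only [mul_assoc, mul_inv_rev, inv_inv, zero_add, add_zero]

lemma exists_bound (W : List ((ℕ ⊕ ℕ) × Bool)) : ∃ B : ℕ, ∀ p ∈ W,
    (∀ m, p.1 = Sum.inl m → m < B) ∧ (∀ j, p.1 = Sum.inr j → j < B) := by
  induction W with
  | nil => exact ⟨0, by simp⟩
  | cons q W ih =>
    obtain ⟨B, hB⟩ := ih
    obtain ⟨q, b⟩ := q
    rcases q with m | j
    · refine ⟨B + m + 1, fun p hp => ?_⟩
      rcases List.mem_cons.1 hp with rfl | hp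
      · refine ⟨fun m' h => ?_, fun j h => ?_⟩
        · simp only [Sum.inl.injEq] at h; omega
        · simp at h
      · exact ⟨fun m' h => by have := (hB p hp).1 m' h; omega,
          fun j h => by have := (hB p hp).2 j h; omega⟩
    · refine ⟨B + j + 1, fun p hp => ?_⟩
      rcases List.mem_cons.1 hp with rfl | hp
      · refine ⟨fun m' h => ?_, fun j' h => ?_⟩
        · simp at h
        · simp only [Sum.inr.injEq] at h; omega
      · exact ⟨fun m' h => by have := (hB p hp).1 m' h; omega,
          fun j h => by have := (hB p hp).2 j h; omega⟩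

/-- Every r.e. set reduces to a computable family of equations. -/
theorem exists_family {p : ℕ → Prop} (hp : REPred p) :
    ∃ (r N j : ℕ) (W : List ((ℕ ⊕ ℕ) × Bool)), 6 ≤ r ∧
      (∀ n, ∀ q ∈ word j W n, ∀ m, q.1 = Sum.inr m → m < N) ∧
      ∀ n, p n ↔ ∃ x : ℕ → FreeGroup (Fin r), evr r (SS r N) x (FreeGroup.mk (word j W n)) = 1 := by
  classical
  obtain ⟨δ, e, he⟩ := exists_ex (Pool.Agent.Lib_helper46.DPRM36.MRDP.re_dioph hp)
  let l : List (Ex (Unit ⊕ δ)) := pr (Sum.inl ()) :: subs e
  let idx : Ex (Unit ⊕ δ) → ℕ := fun s => l.idxOf s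
  have hidx : ∀ s ∈ l, l[idx s]? = some s := by
    intro s hs
    have h1 : l.idxOf s < l.length := List.idxOf_lt_length_of_mem hs
    show l[l.idxOf s]? = some s
    rw [List.getElem?_eq_getElem h1, List.getElem_idxOf h1]
  set i := idx (pr (Sum.inl ())) with hi
  set W := (comb (fun j => cs (6 + j)) 1 (allEqs idx l e)).toWord with hW
  obtain ⟨B, hB⟩ := exists_bound W
  have hlet : ∀ n, ∀ q ∈ word (10 * (4 * i)) W n,
      q.1 = Sum.inl 6 ∨ q.1 = Sum.inl 0 ∨ q.1 = Sum.inr (10 * (4 * i)) ∨ q ∈ W := by
    intro n q hq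
    simp only [word, List.mem_append, List.mem_cons, List.not_mem_nil, or_false,
      List.mem_map] at hq
    rcases hq with rfl | ⟨_, _, rfl⟩ | (rfl | rfl | rfl) | ⟨_, _, rfl⟩ | h <;> simp_all
  refine ⟨B + 7, B + 10 * (4 * i) + 1, 10 * (4 * i), W, by omega, ?_, ?_⟩
  · intro n q hq m hm
    rcases hlet n q hq with h | h | h | h
    · rw [h] at hm; simp at hm
    · rw [h] at hm; simp at hm
    · rw [h] at hm; simp only [Sum.inr.injEq] at hm; omega
    · have := (hB q h).2 m hm; omega
  · intro n
    rw [transfer (by omega)]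
    · rw [← total_eq]
      have h1 : p n ↔ (fun _ : Unit => n) ∈ {v : Unit → ℕ | p (v ())} := Iff.rfl
      rw [h1, he n]
      constructor
      · rintro ⟨t, ht⟩
        exact total_complete e idx n hidx t ht
      · rintro ⟨x, hx⟩
        exact total_sound e idx n x hx
    · intro q hq m hm
      rcases hlet n q hq with h | h | h | h
      · rw [h] at hm; simp only [Sum.inl.injEq] at hm; omega
      · rw [h] at hm; simp only [Sum.inl.injEq] at hm; omega
      · rw [h] at hm; simp at hm
      · have := (hB q h).1 m hm; omega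
    · intro q hq m hm
      rcases hlet n q hq with h | h | h | h
      · rw [h] at hm; simp at hm
      · rw [h] at hm; simp at hm
      · rw [h] at hm; simp only [Sum.inr.injEq] at hm; omega
      · have := (hB q h).2 m hm; omega

/-- An undecidable r.e. set of naturals. -/
theorem exists_undecidable : ∃ p : ℕ → Prop, REPred p ∧ ¬ ComputablePred p := by
  refine ⟨fun n => (Nat.Partrec.Code.eval (Denumerable.ofNat Nat.Partrec.Code n) 0).Dom, ?_, ?_⟩
  · exact Partrec.comp (ComputablePred.halting_problem_re 0) (Computable.ofNat Nat.Partrec.Code)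
  · intro h
    apply ComputablePred.halting_problem 0
    rw [ComputablePred.computable_iff] at h ⊢
    obtain ⟨f, hf, h⟩ := h
    refine ⟨fun c => f (Encodable.encode c), hf.comp Computable.encode, ?_⟩
    funext c
    have := congrFun h (Encodable.encode c)
    simpa using this

/-- **Twisted equations over free groups are undecidable.** -/
theorem undecidable (f : ℕ × List ((ℕ ⊕ ℕ) × Bool) × List (ℕ × List (List (ℕ × Bool))) → Bool)
    (hf : Computable f)
    (h : ∀ (r : ℕ) (w : List ((ℕ ⊕ ℕ) × Bool)) (S : List (ℕ × List (List (ℕ × Bool)))),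
      (∀ p ∈ w, ∀ j : ℕ, p.1 = Sum.inr j → j < S.length) →
      (∀ q ∈ S, q.2.length = r ∧
        Function.Bijective
          (FreeGroup.lift (fun k : Fin r =>
            FreeGroup.lift
              (fun m : ℕ => if h : m < r then FreeGroup.of (⟨m, h⟩ : Fin r) else 1)
              (FreeGroup.mk (q.2.getD k.val [])))
            : FreeGroup (Fin r) → FreeGroup (Fin r))) →
      (f (r, w, S) = true ↔ ∃ x : ℕ → FreeGroup (Fin r), evr r S x (FreeGroup.mk w) = 1)) :
    False := by
  obtain ⟨p, hp, hnp⟩ := exists_undecidable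
  obtain ⟨r, N, j, W, hr, hN, hW⟩ := exists_family hp
  apply hnp
  rw [ComputablePred.computable_iff]
  refine ⟨fun n => f (r, word j W n, SS r N), ?_, ?_⟩
  · exact hf.comp (Computable.pair (Computable.const r)
      (Computable.pair (word_computable j W) (Computable.const _)))
  · funext n
    apply propext
    rw [hW n]
    refine (h r _ _ (fun q hq m hm => ?_) (fun q hq => ?_)).symm
    · rw [SS_length]; exact hN n q hq m hm
    · simp only [SS, List.mem_map, List.mem_range] at hq
      obtain ⟨i, -, rfl⟩ := hq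
      refine ⟨by simp, ?_⟩
      simp only [map_getD]
      exact actr_bij hr (opc (i % 10))

end Pool.Agent.Lib_helper46.Twist
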