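import Mathlib

set_option autoImplicit false

/-!
Exponent sums and a homomorphism to the integral Heisenberg group, used for the soundness of the
multiplication gadget.
-/

namespace Pool.Agent.Lib_helper46.Twist

/-- The free group on countably many letters. -/
abbrev F : Type := FreeGroup ℕ

/-- The letter `m`. -/
abbrev L (m : ℕ) : F := FreeGroup.of m

/-- The integral Heisenberg group. -/
@[ext] structure Heis where
  p : ℤ
  q : ℤ
  c : ℤ

namespace Heis

instance : Mul Heis := ⟨fun x y => ⟨x.p + y.p, x.q + y.q, x.c + y.c + x.p * y.q⟩⟩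
instance : One Heis := ⟨⟨0, 0, 0⟩⟩
instance : Inv Heis := ⟨fun x => ⟨-x.p, -x.q, -x.c + x.p * x.q⟩⟩

@[simp] lemma mul_p (x y : Heis) : (x * y).p = x.p + y.p := rfl
@[simp] lemma mul_q (x y : Heis) : (x * y).q = x.q + y.q := rfl
@[simp] lemma mul_c (x y : Heis) : (x * y).c = x.c + y.c + x.p * y.q := rfl
@[simp] lemma one_p : (1 : Heis).p = 0 := rfl
@[simp] lemma one_q : (1 : Heis).q = 0 := rfl
@[simp] lemma one_c : (1 : Heis).c = 0 := rfl
@[simp] lemma inv_p (x : Heis) : (x⁻¹).p = -x.p := rfl
@[simp] lemma inv_q (x : Heis) : (x⁻¹).q = -x.q := rfl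
@[simp] lemma inv_c (x : Heis) : (x⁻¹).c = -x.c + x.p * x.q := rfl

instance : Group Heis :=
  Group.ofLeftAxioms
    (fun x y z => by ext <;> simp <;> ring)
    (fun x => by ext <;> simp)
    (fun x => by ext <;> simp)

end Heis

/-- The automorphisms used in the equations (with the inverses of the last two kinds). -/
inductive Op
  /-- identity -/
  | i0
  /-- invert letters 4, 5 -/
  | io
  /-- invert letters 1, 2, 3, 4, 5 -/
  | it
  /-- `2 ↦ 2 1`, `5 ↦ 5 4` -/
  | ph
  /-- inverse of `ph` -/
  | phi
  /-- `2 ↦ 3 2` -/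
  | ps
  /-- inverse of `ps` -/
  | psi
  /-- swap 0 and 1 -/
  | s1
  /-- swap 0 and 3 -/
  | s3
  /-- swap 0 and 4 -/
  | s4

/-- Image of a letter. -/
def img : Op → ℕ → List (ℕ × Bool)
  | .i0, m => [(m, true)]
  | .io, m => [(m, decide (m ≠ 4 ∧ m ≠ 5))]
  | .it, m => [(m, decide (m = 0 ∨ 6 ≤ m))]
  | .ph, m => if m = 2 then [(2, true), (1, true)] else if m = 5 then [(5, true), (4, true)]
      else [(m, true)]
  | .phi, m => if m = 2 then [(2, true), (1, false)] else if m = 5 then [(5, true), (4, false)]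
      else [(m, true)]
  | .ps, m => if m = 2 then [(3, true), (2, true)] else [(m, true)]
  | .psi, m => if m = 2 then [(3, false), (2, true)] else [(m, true)]
  | .s1, m => if m = 0 then [(1, true)] else if m = 1 then [(0, true)] else [(m, true)]
  | .s3, m => if m = 0 then [(3, true)] else if m = 3 then [(0, true)] else [(m, true)]
  | .s4, m => if m = 0 then [(4, true)] else if m = 4 then [(0, true)] else [(m, true)]

/-- The inverse operation. -/
def Op.iv : Op → Op
  | .i0 => .i0
  | .io => .io
  | .it => .it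
  | .ph => .phi
  | .phi => .ph
  | .ps => .psi
  | .psi => .ps
  | .s1 => .s1
  | .s3 => .s3
  | .s4 => .s4

/-- The endomorphism of an operation. -/
def act (o : Op) : F →* F := FreeGroup.lift fun m => FreeGroup.mk (img o m)

@[simp] lemma act_of (o : Op) (m : ℕ) : act o (L m) = FreeGroup.mk (img o m) := by
  simp [act]

lemma mk_single (m : ℕ) : (FreeGroup.mk [(m, true)] : F) = L m := rfl
lemma mk_single' (m : ℕ) : (FreeGroup.mk [(m, false)] : F) = (L m)⁻¹ := rfl
lemma mk_pair (m n : ℕ) (b b' : Bool) : (FreeGroup.mk [(m, b), (n, b')] : F) =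
    FreeGroup.mk [(m, b)] * FreeGroup.mk [(n, b')] := rfl

lemma act_act_iv (o : Op) (g : F) : act o (act o.iv g) = g := by
  have h : (act o).comp (act o.iv) = MonoidHom.id F := by
    ext m
    show act o (act o.iv (L m)) = L m
    rw [act_of]
    by_cases h6 : 6 ≤ m
    · have h0 : ∀ o : Op, FreeGroup.mk (img o m) = L m := by
        intro o
        rcases o <;> simp [img, mk_single, h6, show m ≠ 2 by omega, show m ≠ 5 by omega,
          show m ≠ 0 by omega, show m ≠ 1 by omega, show m ≠ 3 by omega, show m ≠ 4 by omega]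
      rw [h0, act_of, h0]
    · have h7 : m < 6 := by omega
      rcases o <;> interval_cases m <;>
        simp [Op.iv, img, mk_single, mk_single', mk_pair, act, -FreeGroup.mul_mk]
  exact DFunLike.congr_fun h g

lemma iv_iv (o : Op) : o.iv.iv = o := by cases o <;> rfl

lemma act_iv_act (o : Op) (g : F) : act o.iv (act o g) = g := by
  have := act_act_iv o.iv g
  rwa [iv_iv] at this

end Pool.Agent.Lib_helper46.Twist
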