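import Pool.Agent.Lib_helper46.Twist.Heis

set_option autoImplicit false

/-!
Soundness of the gadgets.
-/

namespace Pool.Agent.Lib_helper46.Twist

/-- Exponent sum of the letter `l`, as a homomorphism. -/
def es (l : ℕ) : F →* Multiplicative ℤ :=
  FreeGroup.lift fun m => Multiplicative.ofAdd (if m = l then 1 else 0)

/-- Exponent sum of the letter `l`. -/
def e (l : ℕ) (g : F) : ℤ := (es l g).toAdd

@[simp] lemma e_mul (l : ℕ) (g h : F) : e l (g * h) = e l g + e l h := by simp [e]
@[simp] lemma e_one (l : ℕ) : e l 1 = 0 := by simp [e]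
@[simp] lemma e_inv (l : ℕ) (g : F) : e l g⁻¹ = - e l g := by simp [e]
@[simp] lemma e_L (l m : ℕ) : e l (L m) = if m = l then 1 else 0 := by simp [e, es]
@[simp] lemma e_mk_single (l m : ℕ) (b : Bool) :
    e l (FreeGroup.mk [(m, b)]) = if m = l then (if b then 1 else -1) else 0 := by
  cases b
  · rw [mk_single', e_inv, e_L]; split_ifs <;> simp_all
  · rw [mk_single, e_L]; simp

lemma add_ext (f f' : F → ℤ) (h1 : ∀ g h, f (g * h) = f g + f h)
    (h2 : ∀ g h, f' (g * h) = f' g + f' h) (hL : ∀ m, f (L m) = f' (L m)) (g : F) :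
    f g = f' g := by
  have a1 : f 1 = 0 := by have := h1 1 1; simp at this; exact this
  have a2 : f' 1 = 0 := by have := h2 1 1; simp at this; exact this
  have b1 : ∀ g, f g⁻¹ = - f g := fun g => by
    have := h1 g g⁻¹; rw [mul_inv_cancel, a1] at this; omega
  have b2 : ∀ g, f' g⁻¹ = - f' g := fun g => by
    have := h2 g g⁻¹; rw [mul_inv_cancel, a2] at this; omega
  induction g using FreeGroup.induction_on with
  | C1 => rw [a1, a2]
  | of m => exact hL m
  | inv_of m h => rw [b1, b2]; exact congrArg Neg.neg h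
  | mul g h hg hh => rw [h1, h2, hg, hh]

/-- The homomorphism to the Heisenberg group. -/
def H : F →* Heis := FreeGroup.lift fun m => ⟨if m = 2 then 1 else 0, if m = 5 then 1 else 0, 0⟩

@[simp] lemma H_L (m : ℕ) : H (L m) = ⟨if m = 2 then 1 else 0, if m = 5 then 1 else 0, 0⟩ := by
  simp [H]

lemma H_p (g : F) : (H g).p = e 2 g :=
  add_ext (fun g => (H g).p) (e 2) (by simp) (by simp) (by simp) g

lemma H_q (g : F) : (H g).q = e 5 g :=
  add_ext (fun g => (H g).q) (e 5) (by simp) (by simp) (by simp) g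

/-- Kill the separators. -/
def rho : F →* F := FreeGroup.lift fun m => if m < 6 then L m else 1

@[simp] lemma rho_L (m : ℕ) : rho (L m) = if m < 6 then L m else 1 := by simp [rho]

lemma e_rho {l : ℕ} (hl : l < 6) (g : F) : e l (rho g) = e l g :=
  add_ext (fun g => e l (rho g)) (e l) (by simp) (by simp)
    (fun m => by
      simp only [rho_L]
      by_cases h : m < 6
      · simp [h]
      · have : m ≠ l := by omega
        simp [h, this]) g

lemma H_rho (g : F) : H (rho g) = H g := by
  have h : H.comp rho = H := by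
    ext m
    all_goals
      show _ = _
      simp only [MonoidHom.comp_apply, rho_L]
      by_cases h : m < 6
      · simp [h]
      · simp [h, show m ≠ 2 by omega, show m ≠ 5 by omega]
  exact DFunLike.congr_fun h g

/-- The involution of the Heisenberg group. -/
def kap : Heis →* Heis where
  toFun x := ⟨x.p, -x.q, -x.c⟩
  map_one' := by ext <;> simp
  map_mul' x y := by ext <;> simp <;> ring

lemma H_io (g : F) : H (act .io g) = kap (H g) := by
  have h : H.comp (act .io) = kap.comp H := by
    apply FreeGroup.ext_hom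
    intro m
    simp only [MonoidHom.comp_apply]
    rw [act_of, H_L]
    by_cases h4 : m = 4
    · subst h4
      show H (L 4)⁻¹ = _
      rw [map_inv, H_L]
      ext <;> simp [kap]
    by_cases h5 : m = 5
    · subst h5
      show H (L 5)⁻¹ = _
      rw [map_inv, H_L]
      ext <;> simp [kap]
    · have : img .io m = [(m, true)] := by simp [img, h4, h5]
      rw [this, mk_single, H_L]
      ext <;> simp [kap, h5]
  exact DFunLike.congr_fun h g

lemma H_ph (g : F) : H (act .ph g) = H g := by
  have h : H.comp (act .ph) = H := by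
    apply FreeGroup.ext_hom
    intro m
    simp only [MonoidHom.comp_apply]
    rw [act_of]
    simp only [img]
    split_ifs with h2 h5
    · subst h2
      rw [mk_pair, mk_single, mk_single, map_mul, H_L, H_L]
      ext <;> simp
    · subst h5
      rw [mk_pair, mk_single, mk_single, map_mul, H_L, H_L]
      ext <;> simp
    · rw [mk_single]
  exact DFunLike.congr_fun h g

lemma H_s4 (g : F) : H (act .s4 g) = H g := by
  have h : H.comp (act .s4) = H := by
    apply FreeGroup.ext_hom
    intro m
    simp only [MonoidHom.comp_apply]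
    rw [act_of]
    simp only [img]
    split_ifs with h2 h5
    · subst h2
      rw [mk_single, H_L, H_L]
      ext <;> simp
    · subst h5
      rw [mk_single, H_L, H_L]
      ext <;> simp
    · rw [mk_single]
  exact DFunLike.congr_fun h g

/-- coefficients of exponent sums -/
lemma e_act (o : Op) (l : ℕ) (f : F → ℤ) (hf : ∀ g h, f (g * h) = f g + f h)
    (hL : ∀ m, e l (FreeGroup.mk (img o m)) = f (L m)) (g : F) : e l (act o g) = f g :=
  add_ext (fun g => e l (act o g)) f (by simp) hf (fun m => by simp only [act_of]; exact hL m) g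

lemma e_it {l : ℕ} (h1 : 1 ≤ l) (h2 : l ≤ 5) (g : F) : e l (act .it g) = - e l g := by
  refine e_act .it l (fun g => - e l g) (fun g h => by simp; ring) (fun m => ?_) g
  simp only [img, e_mk_single, e_L]
  by_cases h : m = l
  · subst h
    have : ¬ (m = 0 ∨ 6 ≤ m) := by omega
    simp [this]
  · simp [h]

lemma e4_io (g : F) : e 4 (act .io g) = - e 4 g := by
  refine e_act .io 4 (fun g => - e 4 g) (fun g h => by simp; ring) (fun m => ?_) g
  simp only [img, e_mk_single, e_L]
  by_cases h : m = 4 <;> simp [h]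

lemma e5_io (g : F) : e 5 (act .io g) = - e 5 g := by
  refine e_act .io 5 (fun g => - e 5 g) (fun g h => by simp; ring) (fun m => ?_) g
  simp only [img, e_mk_single, e_L]
  by_cases h : m = 5 <;> simp [h]

lemma e_ph (l : ℕ) (g : F) : e l (act .ph g) = e l g + (if l = 1 then e 2 g else 0) +
    (if l = 4 then e 5 g else 0) := by
  refine e_act .ph l (fun g => e l g + (if l = 1 then e 2 g else 0) +
    (if l = 4 then e 5 g else 0)) (fun g h => by split_ifs <;> simp <;> ring)
    (fun m => ?_) g
  unfold img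
  by_cases h2 : m = 2
  · subst h2
    simp only [↓reduceIte]
    rw [mk_pair]
    simp only [e_mul, e_mk_single, e_L]
    by_cases l1 : l = 1
    · subst l1; simp
    · by_cases l4 : l = 4
      · subst l4; simp
      · simp [l1, l4, Ne.symm l1]
  · by_cases h5 : m = 5
    · subst h5
      simp only [↓reduceIte]
      norm_num
      rw [mk_pair]
      simp only [e_mul, e_mk_single]
      by_cases l1 : l = 1
      · subst l1; simp
      · by_cases l4 : l = 4
        · subst l4; simp
        · simp [l1, l4, Ne.symm l4]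
    · simp [h2, h5]

lemma e_ps (l : ℕ) (g : F) : e l (act .ps g) = e l g + (if l = 3 then e 2 g else 0) := by
  refine e_act .ps l (fun g => e l g + (if l = 3 then e 2 g else 0))
    (fun g h => by split_ifs <;> simp <;> ring) (fun m => ?_) g
  unfold img
  by_cases h2 : m = 2
  · subst h2
    simp only [↓reduceIte]
    rw [mk_pair]
    simp only [e_mul, e_mk_single, e_L]
    by_cases l1 : l = 3
    · subst l1; simp
    · simp [l1, Ne.symm l1]
  · simp [h2]

lemma e_s1 {l : ℕ} (h0 : l ≠ 0) (h1 : l ≠ 1) (g : F) : e l (act .s1 g) = e l g := by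
  refine e_act .s1 l (e l) (by simp) (fun m => ?_) g
  simp only [img]
  split_ifs with h2 h5
  · subst h2; simp [Ne.symm h0, Ne.symm h1]
  · subst h5; simp [Ne.symm h0, Ne.symm h1]
  · simp

lemma e1_s1 (g : F) : e 1 (act .s1 g) = e 0 g := by
  refine e_act .s1 1 (e 0) (by simp) (fun m => ?_) g
  simp only [img]
  split_ifs with h2 h5
  · subst h2; simp
  · subst h5; simp
  · simp [h2, h5]

lemma e_s3 {l : ℕ} (h0 : l ≠ 0) (h1 : l ≠ 3) (g : F) : e l (act .s3 g) = e l g := by
  refine e_act .s3 l (e l) (by simp) (fun m => ?_) g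
  simp only [img]
  split_ifs with h2 h5
  · subst h2; simp [Ne.symm h0, Ne.symm h1]
  · subst h5; simp [Ne.symm h0, Ne.symm h1]
  · simp

lemma e3_s3 (g : F) : e 3 (act .s3 g) = e 0 g := by
  refine e_act .s3 3 (e 0) (by simp) (fun m => ?_) g
  simp only [img]
  split_ifs with h2 h5
  · subst h2; simp
  · subst h5; simp
  · simp [h2, h5]

lemma e_s4 {l : ℕ} (h0 : l ≠ 0) (h1 : l ≠ 4) (g : F) : e l (act .s4 g) = e l g := by
  refine e_act .s4 l (e l) (by simp) (fun m => ?_) g
  simp only [img]
  split_ifs with h2 h5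
  · subst h2; simp [Ne.symm h0, Ne.symm h1]
  · subst h5; simp [Ne.symm h0, Ne.symm h1]
  · simp

lemma e4_s4 (g : F) : e 4 (act .s4 g) = e 0 g := by
  refine e_act .s4 4 (e 0) (by simp) (fun m => ?_) g
  simp only [img]
  split_ifs with h2 h5
  · subst h2; simp
  · subst h5; simp
  · simp [h2, h5]

/-- The equation `u v⁻¹ = 1` after killing the separators. -/
def Eqv (u v : F) : Prop := rho (u * v⁻¹) = 1

lemma Eqv.e {u v : F} (h : Eqv u v) {l : ℕ} (hl : l < 6) : e l u = e l v := by
  have h1 : Twist.e l (rho (u * v⁻¹)) = 0 := by rw [show rho (u * v⁻¹) = 1 from h]; simp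
  rw [e_rho hl] at h1
  simp at h1
  omega

lemma Eqv.H {u v : F} (h : Eqv u v) : H u = H v := by
  have h1 : Twist.H (rho (u * v⁻¹)) = 1 := by rw [show rho (u * v⁻¹) = 1 from h]; simp
  rw [H_rho, map_mul, map_inv] at h1
  exact mul_inv_eq_one.1 h1

/-- `V` represents an integer. -/
structure IsNum (V : F) : Prop where
  h1 : ∀ l, 1 ≤ l → l ≤ 5 → e l V = 0
  hc : (H V).c = 0

lemma io_sound {x : F} (h : Eqv (act .io x) x) : e 4 x = 0 ∧ e 5 x = 0 ∧ (H x).c = 0 := by
  have h4 := h.e (l := 4) (by norm_num)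
  have h5 := h.e (l := 5) (by norm_num)
  have hH := congrArg Heis.c h.H
  rw [e4_io] at h4
  rw [e5_io] at h5
  rw [H_io] at hH
  simp only [kap, MonoidHom.coe_mk, OneHom.coe_mk] at hH
  refine ⟨by omega, by omega, by omega⟩

lemma num_sound {V : F} (h1 : Eqv (act .io V) V) (h2 : Eqv (act .it V) V) : IsNum V := by
  refine ⟨fun l a b => ?_, (io_sound h1).2.2⟩
  have := h2.e (l := l) (by omega)
  rw [e_it a b] at this
  omega

/-- **Soundness of the multiplication gadget.** -/
theorem mul_sound {x y Z K M N : F} (hK : IsNum K) (hM : IsNum M) (hN : IsNum N)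
    (hx : Eqv (act .io x) x) (hy : Eqv (act .io y) y)
    (E1 : Eqv (L 5 * x * act .ph Z) (Z * L 5 * act .s4 K * y))
    (E2 : Eqv (L 2 * (L 3)⁻¹ * act .ps y * L 3) (x * L 2 * act .s1 N * act .s3 M)) :
    e 0 N = e 0 K * e 0 M := by
  obtain ⟨x4, x5, xc⟩ := io_sound hx
  obtain ⟨y4, y5, yc⟩ := io_sound hy
  have K1 := hK.h1 1 (by norm_num) (by norm_num)
  have K2 := hK.h1 2 (by norm_num) (by norm_num)
  have K3 := hK.h1 3 (by norm_num) (by norm_num)
  have K5 := hK.h1 5 (by norm_num) (by norm_num)
  have M1 := hM.h1 1 (by norm_num) (by norm_num)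
  have N3 := hN.h1 3 (by norm_num) (by norm_num)
  have a1 := E1.e (l := 1) (by norm_num)
  have a2 := E1.e (l := 2) (by norm_num)
  have a3 := E1.e (l := 3) (by norm_num)
  have a4 := E1.e (l := 4) (by norm_num)
  have b1 := E2.e (l := 1) (by norm_num)
  have b3 := E2.e (l := 3) (by norm_num)
  have c := congrArg Heis.c E1.H
  simp only [e_mul, e_L, e_ph, e_inv, e_ps, e4_s4, e_s4 (show (1:ℕ) ≠ 0 by norm_num)
    (show (1:ℕ) ≠ 4 by norm_num), e_s4 (show (2:ℕ) ≠ 0 by norm_num)
    (show (2:ℕ) ≠ 4 by norm_num), e_s4 (show (3:ℕ) ≠ 0 by norm_num)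
    (show (3:ℕ) ≠ 4 by norm_num), e1_s1, e3_s3, e_s3 (show (1:ℕ) ≠ 0 by norm_num)
    (show (1:ℕ) ≠ 3 by norm_num), e_s1 (show (3:ℕ) ≠ 0 by norm_num)
    (show (3:ℕ) ≠ 1 by norm_num)] at a1 a2 a3 a4 b1 b3
  norm_num at a1 a2 a3 a4 b1 b3
  simp only [map_mul, Heis.mul_c, Heis.mul_p, H_p, H_q, H_L, H_ph, H_s4] at c
  norm_num at c
  rw [xc, yc, y5, hK.hc, K2, K5] at c
  have hZ5 : e 5 Z = e 0 K := by omega
  have hZ2 : e 2 Z = e 2 x * e 5 Z := by linarith
  have h1 : e 0 N = e 2 Z := by omega
  have h2 : e 0 M = e 2 x := by omega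
  rw [h1, h2, hZ2, hZ5]
  ring

end Pool.Agent.Lib_helper46.Twist
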