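import Pool.Agent.Lib_helper46.Twist.Combine
import Pool.Agent.Lib_helper46.Twist.Complete
import Pool.Agent.Lib_helper46.Twist.Expr

set_option autoImplicit false

/-!
The equation attached to an expression.
-/

namespace Pool.Agent.Lib_helper46.Twist

/-- Words in constants and twisted variables. -/
abbrev G : Type := FreeGroup (ℕ ⊕ ℕ)

/-- Code of an operation. -/
def Op.code : Op → ℕ
  | .i0 => 0
  | .io => 1
  | .it => 2
  | .ph => 3
  | .phi => 4
  | .ps => 5
  | .psi => 6
  | .s1 => 7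
  | .s3 => 8
  | .s4 => 9

/-- Decoding of an operation. -/
def opc : ℕ → Op
  | 0 => .i0
  | 1 => .io
  | 2 => .it
  | 3 => .ph
  | 4 => .phi
  | 5 => .ps
  | 6 => .psi
  | 7 => .s1
  | 8 => .s3
  | _ => .s4

lemma opc_code (o : Op) : opc o.code = o := by cases o <;> rfl

lemma code_lt (o : Op) : o.code < 10 := by cases o <;> decide

/-- Evaluation. -/
def ev (x : ℕ → F) : G →* F :=
  FreeGroup.lift (Sum.elim L fun j => act (opc (j % 10)) (x (j / 10)))

/-- The symbol `x_v ^ o`. -/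
def sy (v : ℕ) (o : Op) : G := FreeGroup.of (Sum.inr (10 * v + o.code))

/-- A constant letter. -/
def cs (m : ℕ) : G := FreeGroup.of (Sum.inl m)

@[simp] lemma ev_cs (x : ℕ → F) (m : ℕ) : ev x (cs m) = L m := by simp [ev, cs]

@[simp] lemma ev_sy (x : ℕ → F) (v : ℕ) (o : Op) : ev x (sy v o) = act o (x v) := by
  simp only [ev, sy, FreeGroup.lift_apply_of, Sum.elim_inr]
  have h1 : (10 * v + o.code) % 10 = o.code := by have := code_lt o; omega
  have h2 : (10 * v + o.code) / 10 = v := by have := code_lt o; omega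
  rw [h1, h2, opc_code]

lemma act_i0 (g : F) : act .i0 g = g := by
  have : act .i0 = MonoidHom.id F := by
    apply FreeGroup.ext_hom
    intro m
    rw [act_of]; rfl
  rw [this]; rfl

variable {γ δ : Type}

open Ex

/-- Equations saying that the variable `i` is a number. -/
def numEqs (i : ℕ) : List G :=
  [sy (4 * i) .io * (sy (4 * i) .i0)⁻¹, sy (4 * i) .it * (sy (4 * i) .i0)⁻¹]

/-- Equations of an expression. -/
def eqs (idx : Ex γ → ℕ) : Ex γ → List G
  | pr _ => []
  | c z => [sy (4 * idx (c z)) .i0 * (cs 0 ^ z)⁻¹]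
  | sub a b => [sy (4 * idx (sub a b)) .i0 *
      (sy (4 * idx a) .i0 * (sy (4 * idx b) .i0)⁻¹)⁻¹]
  | mul a b =>
    [sy (4 * idx (mul a b) + 1) .io * (sy (4 * idx (mul a b) + 1) .i0)⁻¹,
     sy (4 * idx (mul a b) + 2) .io * (sy (4 * idx (mul a b) + 2) .i0)⁻¹,
     (cs 5 * sy (4 * idx (mul a b) + 1) .i0 * sy (4 * idx (mul a b) + 3) .ph) *
      (sy (4 * idx (mul a b) + 3) .i0 * cs 5 * sy (4 * idx a) .s4 *
        sy (4 * idx (mul a b) + 2) .i0)⁻¹,
     (cs 2 * (cs 3)⁻¹ * sy (4 * idx (mul a b) + 2) .ps * cs 3) *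
      (sy (4 * idx (mul a b) + 1) .i0 * cs 2 * sy (4 * idx (mul a b)) .s1 *
        sy (4 * idx b) .s3)⁻¹]

/-- All equations that do not depend on the parameter. -/
def allEqs (idx : Ex γ → ℕ) (l : List (Ex γ)) (e : Ex γ) : List G :=
  sy (4 * idx e) .i0 :: l.flatMap fun s => numEqs (idx s) ++ eqs idx s

/-- The parameter equation. -/
def pe (i : ℕ) (n : ℕ) : G := (cs 0 ^ n)⁻¹ * sy (4 * i) .i0

/-- The combined equation. -/
def total (idx : Ex γ → ℕ) (l : List (Ex γ)) (e : Ex γ) (i n : ℕ) : G :=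
  comb (fun j => cs (6 + j)) 0 (pe i n :: allEqs idx l e)

lemma ev_total (x : ℕ → F) (idx : Ex γ → ℕ) (l : List (Ex γ)) (e : Ex γ) (i n : ℕ) :
    ev x (total idx l e i n) =
      comb (fun j => L (6 + j)) 0 ((pe i n :: allEqs idx l e).map (ev x)) := by
  rw [total, comb_map]
  congr 1

/-- Soundness. -/
theorem total_sound (e : Ex (Unit ⊕ δ)) (idx : Ex (Unit ⊕ δ) → ℕ) (n : ℕ) (x : ℕ → F)
    (h : ev x (total idx (pr (Sum.inl ()) :: subs e) e (idx (pr (Sum.inl ()))) n) = 1) :
    ∃ t : δ → ℤ, eval (Sum.elim (fun _ => (n : ℤ)) t) e = 0 := by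
  rw [ev_total] at h
  have hs := comb_sound _ _ h
  have hall : ∀ g ∈ allEqs idx (pr (Sum.inl ()) :: subs e) e, rho (ev x g) = 1 := fun g hg =>
    hs _ (List.mem_map.2 ⟨g, List.mem_cons_of_mem _ hg, rfl⟩)
  have hpe : rho (ev x (pe (idx (pr (Sum.inl ()))) n)) = 1 :=
    hs _ (List.mem_map.2 ⟨_, List.mem_cons_self, rfl⟩)
  have hsub : ∀ s ∈ (pr (Sum.inl ()) :: subs e : List (Ex (Unit ⊕ δ))),
      ∀ g ∈ numEqs (idx s) ++ eqs idx s, rho (ev x g) = 1 := fun s hs g hg =>
    hall g (List.mem_cons_of_mem _ (List.mem_flatMap.2 ⟨s, hs, hg⟩))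
  have hnum : ∀ s ∈ (pr (Sum.inl ()) :: subs e : List (Ex (Unit ⊕ δ))),
      IsNum (x (4 * idx s)) := by
    intro s hs
    have h1 := hsub s hs (sy (4 * idx s) .io * (sy (4 * idx s) .i0)⁻¹) (by simp [numEqs])
    have h2 := hsub s hs (sy (4 * idx s) .it * (sy (4 * idx s) .i0)⁻¹) (by simp [numEqs])
    simp only [map_mul (ev x), map_inv (ev x), ev_sy, act_i0] at h1 h2
    exact num_sound h1 h2
  set v : Ex (Unit ⊕ δ) → ℤ := fun s => Twist.e 0 (x (4 * idx s)) with hv
  have hconstr : ∀ s ∈ subs e, constr v s := by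
    intro s hs
    have hs' : s ∈ (pr (Sum.inl ()) :: subs e : List (Ex (Unit ⊕ δ))) :=
      List.mem_cons_of_mem _ hs
    have hE := hsub s hs'
    cases s with
    | pr i => trivial
    | c z =>
      have h1 := hE (sy (4 * idx (c z)) .i0 * (cs 0 ^ z)⁻¹) (by simp [eqs])
      simp only [map_mul (ev x), map_inv (ev x), map_zpow (ev x), ev_sy, ev_cs, act_i0] at h1
      have h2 : Eqv (x (4 * idx (c z))) (L 0 ^ z) := h1
      have h3 := h2.e (l := 0) (by norm_num)
      show Twist.e 0 _ = z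
      rw [h3]
      simp [Twist.e, es]
    | sub a b =>
      have h1 := hE (sy (4 * idx (sub a b)) .i0 *
        (sy (4 * idx a) .i0 * (sy (4 * idx b) .i0)⁻¹)⁻¹) (by simp [eqs])
      simp only [map_mul (ev x), map_inv (ev x), ev_sy, act_i0] at h1
      have h2 : Eqv (x (4 * idx (sub a b))) (x (4 * idx a) * (x (4 * idx b))⁻¹) := h1
      have h3 := h2.e (l := 0) (by norm_num)
      show Twist.e 0 _ = Twist.e 0 _ - Twist.e 0 _
      rw [h3]
      simp; ring
    | mul a b =>
      have ha : a ∈ (pr (Sum.inl ()) :: subs e : List (Ex (Unit ⊕ δ))) :=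
        List.mem_cons_of_mem _ (mem_trans hs _ (by simp [subs, self_mem]))
      have hb : b ∈ (pr (Sum.inl ()) :: subs e : List (Ex (Unit ⊕ δ))) :=
        List.mem_cons_of_mem _ (mem_trans hs _ (by simp [subs, self_mem]))
      have h1 := hE (sy (4 * idx (mul a b) + 1) .io * (sy (4 * idx (mul a b) + 1) .i0)⁻¹)
        (by simp [eqs])
      have h2 := hE (sy (4 * idx (mul a b) + 2) .io * (sy (4 * idx (mul a b) + 2) .i0)⁻¹)
        (by simp [eqs])
      have h3 := hE ((cs 5 * sy (4 * idx (mul a b) + 1) .i0 * sy (4 * idx (mul a b) + 3) .ph) *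
        (sy (4 * idx (mul a b) + 3) .i0 * cs 5 * sy (4 * idx a) .s4 *
        sy (4 * idx (mul a b) + 2) .i0)⁻¹) (by simp [eqs])
      have h4 := hE ((cs 2 * (cs 3)⁻¹ * sy (4 * idx (mul a b) + 2) .ps * cs 3) *
        (sy (4 * idx (mul a b) + 1) .i0 * cs 2 * sy (4 * idx (mul a b)) .s1 *
        sy (4 * idx b) .s3)⁻¹) (by simp [eqs])
      simp only [map_mul (ev x), map_inv (ev x), ev_sy, ev_cs, act_i0] at h1 h2 h3 h4
      exact mul_sound (hnum a ha) (hnum b hb) (hnum _ hs') h1 h2 h3 h4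
  refine ⟨fun d => v (pr (Sum.inr d)), ?_⟩
  have h1 := eval_eq_of_constr v e hconstr
  have h2 : v (pr (Sum.inl ())) = n := by
    simp only [pe, map_mul (ev x), map_inv (ev x), map_pow (ev x), ev_sy, ev_cs, act_i0] at hpe
    have h3 : Twist.e 0 (rho ((L 0 ^ n)⁻¹ * x (4 * idx (pr (Sum.inl ()))))) = 0 := by
      rw [hpe]; simp
    rw [e_rho (by norm_num)] at h3
    simp only [e_mul, e_inv] at h3
    have h4 : Twist.e 0 (L 0 ^ n) = n := by simp [Twist.e, es]
    rw [h4] at h3
    show Twist.e 0 _ = _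
    omega
  have h3 : v e = 0 := by
    have h4 := hall (sy (4 * idx e) .i0) List.mem_cons_self
    simp only [ev_sy, act_i0] at h4
    show Twist.e 0 _ = 0
    rw [← e_rho (by norm_num), h4]; simp
  rw [← h3, ← h1]
  congr 1
  funext i
  rcases i with i | i
  · exact h2.symm
  · rfl

/-- Completeness. -/
theorem total_complete (e : Ex (Unit ⊕ δ)) (idx : Ex (Unit ⊕ δ) → ℕ) (n : ℕ)
    (hidx : ∀ s ∈ (pr (Sum.inl ()) :: subs e : List (Ex (Unit ⊕ δ))),
      (pr (Sum.inl ()) :: subs e : List (Ex (Unit ⊕ δ)))[idx s]? = some s)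
    (t : δ → ℤ) (ht : eval (Sum.elim (fun _ => (n : ℤ)) t) e = 0) :
    ∃ x : ℕ → F,
      ev x (total idx (pr (Sum.inl ()) :: subs e) e (idx (pr (Sum.inl ()))) n) = 1 := by
  classical
  set u : Unit ⊕ δ → ℤ := Sum.elim (fun _ => (n : ℤ)) t with hu
  choose X Y Z hX hY h1 h2 using mul_complete
  let tr : Ex (Unit ⊕ δ) → F × F × F := fun s => match s with
    | mul a b => (X (eval u a) (eval u b), Y (eval u a) (eval u b), Z (eval u a) (eval u b))
    | _ => (1, 1, 1)
  let sI : ℕ → Ex (Unit ⊕ δ) := fun i =>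
    ((pr (Sum.inl ()) :: subs e : List (Ex (Unit ⊕ δ)))[i]?).getD (c 0)
  let x : ℕ → F := fun m =>
    if m % 4 = 0 then L 0 ^ (eval u (sI (m / 4)))
    else if m % 4 = 1 then (tr (sI (m / 4))).1
    else if m % 4 = 2 then (tr (sI (m / 4))).2.1
    else (tr (sI (m / 4))).2.2
  have hsI : ∀ s ∈ (pr (Sum.inl ()) :: subs e : List (Ex (Unit ⊕ δ))), sI (idx s) = s := by
    intro s hs
    simp only [sI, hidx s hs, Option.getD_some]
  have x0 : ∀ s ∈ (pr (Sum.inl ()) :: subs e : List (Ex (Unit ⊕ δ))),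
      x (4 * idx s) = L 0 ^ (eval u s) := by
    intro s hs
    have a1 : (4 * idx s) % 4 = 0 := by omega
    have a2 : (4 * idx s) / 4 = idx s := by omega
    simp only [x, a1, a2, hsI s hs, ↓reduceIte]
  have x1 : ∀ s ∈ (pr (Sum.inl ()) :: subs e : List (Ex (Unit ⊕ δ))),
      x (4 * idx s + 1) = (tr s).1 := by
    intro s hs
    have a1 : (4 * idx s + 1) % 4 = 1 := by omega
    have a2 : (4 * idx s + 1) / 4 = idx s := by omega
    simp only [x, a1, a2, hsI s hs]
    simp
  have x2 : ∀ s ∈ (pr (Sum.inl ()) :: subs e : List (Ex (Unit ⊕ δ))),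
      x (4 * idx s + 2) = (tr s).2.1 := by
    intro s hs
    have a1 : (4 * idx s + 2) % 4 = 2 := by omega
    have a2 : (4 * idx s + 2) / 4 = idx s := by omega
    simp only [x, a1, a2, hsI s hs]
    simp
  have x3 : ∀ s ∈ (pr (Sum.inl ()) :: subs e : List (Ex (Unit ⊕ δ))),
      x (4 * idx s + 3) = (tr s).2.2 := by
    intro s hs
    have a1 : (4 * idx s + 3) % 4 = 3 := by omega
    have a2 : (4 * idx s + 3) / 4 = idx s := by omega
    simp only [x, a1, a2, hsI s hs]
    simp
  refine ⟨x, ?_⟩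
  rw [ev_total]
  apply comb_one
  intro w hw
  rw [List.mem_map] at hw
  obtain ⟨g, hg, rfl⟩ := hw
  have hmem : ∀ s ∈ subs e, s ∈ (pr (Sum.inl ()) :: subs e : List (Ex (Unit ⊕ δ))) :=
    fun s hs => List.mem_cons_of_mem _ hs
  rcases List.mem_cons.1 hg with rfl | hg
  · simp only [pe, map_mul (ev x), map_inv (ev x), map_pow (ev x), ev_sy, ev_cs, act_i0]
    rw [x0 _ List.mem_cons_self]
    simp [eval, hu]
  rcases List.mem_cons.1 hg with rfl | hg
  · simp only [ev_sy, act_i0]
    rw [x0 _ (hmem _ (self_mem e)), ht]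
    simp
  obtain ⟨s, hs, hg⟩ := List.mem_flatMap.1 hg
  rcases List.mem_append.1 hg with hg | hg
  · simp only [numEqs, List.mem_cons, List.not_mem_nil, or_false] at hg
    rcases hg with rfl | rfl
    · simp only [map_mul (ev x), map_inv (ev x), ev_sy, act_i0]
      rw [x0 s hs, (num_complete _).1, mul_inv_cancel]
    · simp only [map_mul (ev x), map_inv (ev x), ev_sy, act_i0]
      rw [x0 s hs, (num_complete _).2, mul_inv_cancel]
  · have hs' : ∀ r ∈ subs s, r ∈ (pr (Sum.inl ()) :: subs e : List (Ex (Unit ⊕ δ))) := by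
      intro r hr
      rcases List.mem_cons.1 hs with rfl | hs
      · simp only [subs, List.mem_singleton] at hr
        subst hr
        simp
      · exact hmem _ (mem_trans hs r hr)
    cases s with
    | pr i => simp [eqs] at hg
    | c z =>
      simp only [eqs, List.mem_cons, List.not_mem_nil, or_false] at hg
      subst hg
      simp only [map_mul (ev x), map_inv (ev x), map_zpow (ev x), ev_sy, ev_cs, act_i0]
      rw [x0 _ hs]
      simp [eval]
    | sub a b =>
      simp only [eqs, List.mem_cons, List.not_mem_nil, or_false] at hg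
      subst hg
      simp only [map_mul (ev x), map_inv (ev x), ev_sy, act_i0]
      rw [x0 _ hs, x0 a (hs' a (by simp [subs, self_mem])),
        x0 b (hs' b (by simp [subs, self_mem]))]
      simp [eval, zpow_sub]
    | mul a b =>
      have ya := x0 a (hs' a (by simp [subs, self_mem]))
      have yb := x0 b (hs' b (by simp [subs, self_mem]))
      have y1 : x (4 * idx (mul a b) + 1) = X (eval u a) (eval u b) := x1 _ hs
      have y2 : x (4 * idx (mul a b) + 2) = Y (eval u a) (eval u b) := x2 _ hs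
      have y3 : x (4 * idx (mul a b) + 3) = Z (eval u a) (eval u b) := x3 _ hs
      have y0 : x (4 * idx (mul a b)) = L 0 ^ (eval u a * eval u b) := x0 _ hs
      simp only [eqs, List.mem_cons, List.not_mem_nil, or_false] at hg
      rcases hg with rfl | rfl | rfl | rfl
      · simp only [map_mul (ev x), map_inv (ev x), ev_sy, act_i0]
        rw [y1, hX, mul_inv_cancel]
      · simp only [map_mul (ev x), map_inv (ev x), ev_sy, act_i0]
        rw [y2, hY, mul_inv_cancel]
      · simp only [map_mul (ev x), map_inv (ev x), ev_sy, ev_cs, act_i0]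
        rw [y1, y2, y3, ya, mul_inv_eq_one]
        exact h1 _ _
      · simp only [map_mul (ev x), map_inv (ev x), ev_sy, ev_cs, act_i0]
        rw [y1, y2, y0, yb, mul_inv_eq_one]
        exact h2 _ _

end Pool.Agent.Lib_helper46.Twist
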